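import Pool.Agent.Q15.Conn.Main

set_option autoImplicit false

/-!
# A connected quadratic functional graph with a fixed point as its cycle

For the prime `p = 1113643` the functional graph of `x ↦ x² + 278411` (`278411 = 1/4`) over `F_p` is connected,
and its only cycle is the fixed point `556822 = 1/2`.
-/

namespace Pool.Agent.Results.MP_28a92f_nt.Counterexample

/-- The functional graph `G_a` of `x ↦ x² + a` as an undirected graph: `x` and `y ≠ x` are joined if
`y = x² + a` or `x = y² + a`. -/
def graph (p : ℕ) (a : ZMod p) : SimpleGraph (ZMod p) := SimpleGraph.fromRel fun x y => y = x ^ 2 + a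

/-- `x` lies on a cycle of `x ↦ x² + a`. -/
def OnCycle (p : ℕ) (a : ZMod p) (x : ZMod p) : Prop := ∃ n : ℕ, 1 ≤ n ∧ (fun y => y ^ 2 + a)^[n] x = x

theorem prime_p : Nat.Prime 1113643 := by norm_num

theorem cast_F (y : ℕ) : ((Pool.Agent.Q15.Conn.F y : ℕ) : ZMod 1113643) + 556822 =
    ((y : ZMod 1113643) + 556822) ^ 2 + 278411 := by
  unfold Pool.Agent.Q15.Conn.F
  rw [ZMod.natCast_mod]
  push_cast
  have h1 : (2 : ZMod 1113643) * 556822 = 1 := by
    have : ((2 * 556822 : ℕ) : ZMod 1113643) = ((1 : ℕ) : ZMod 1113643) := by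
      rw [ZMod.natCast_eq_natCast_iff]; decide
    exact_mod_cast this
  have h2 : (556822 : ZMod 1113643) ^ 2 + 278411 = 556822 := by
    have : ((556822 ^ 2 + 278411 : ℕ) : ZMod 1113643) = ((556822 : ℕ) : ZMod 1113643) := by
      rw [ZMod.natCast_eq_natCast_iff]; decide
    exact_mod_cast this
  linear_combination (-(y : ZMod 1113643)) * h1 - h2

theorem cast_iter (k y : ℕ) : ((Pool.Agent.Q15.Conn.F^[k] y : ℕ) : ZMod 1113643) + 556822 =
    (fun z : ZMod 1113643 => z ^ 2 + 278411)^[k] ((y : ZMod 1113643) + 556822) := by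
  induction k generalizing y with
  | zero => rfl
  | succ k ih => rw [Function.iterate_succ_apply, Function.iterate_succ_apply, ih, cast_F]

theorem reach (x : ZMod 1113643) : ∃ k : ℕ, (fun z : ZMod 1113643 => z ^ 2 + 278411)^[k] x = 556822 := by
  obtain ⟨k, hk⟩ := Pool.Agent.Q15.Conn.reach (x - 556822).val (ZMod.val_lt _)
  refine ⟨k, ?_⟩
  have h := cast_iter k (x - 556822).val
  rw [hk, ZMod.natCast_val, ZMod.cast_id', id_eq, sub_add_cancel, Nat.cast_zero, zero_add] at h
  exact h.symm

theorem fixed : (556822 : ZMod 1113643) ^ 2 + 278411 = 556822 := by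
  have : ((556822 ^ 2 + 278411 : ℕ) : ZMod 1113643) = ((556822 : ℕ) : ZMod 1113643) := by
    rw [ZMod.natCast_eq_natCast_iff]; decide
  exact_mod_cast this

theorem fixed_iter (k : ℕ) :
    (fun z : ZMod 1113643 => z ^ 2 + 278411)^[k] (556822 : ZMod 1113643) = 556822 :=
  Function.iterate_fixed fixed k

theorem connected : (graph 1113643 278411).Connected := by
  have step : ∀ (k : ℕ) (x : ZMod 1113643), (graph 1113643 278411).Reachable x
      ((fun z : ZMod 1113643 => z ^ 2 + 278411)^[k] x) := by
    intro k
    induction k with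
    | zero => intro x; exact SimpleGraph.Reachable.refl _
    | succ k ih =>
      intro x
      rw [Function.iterate_succ_apply]
      refine SimpleGraph.Reachable.trans ?_ (ih _)
      by_cases h : x = x ^ 2 + 278411
      · show (graph 1113643 278411).Reachable x (x ^ 2 + 278411)
        rw [← h]
      · apply SimpleGraph.Adj.reachable
        unfold graph
        rw [SimpleGraph.fromRel_adj]
        exact ⟨h, Or.inl rfl⟩
  have to_c : ∀ x, (graph 1113643 278411).Reachable x 556822 := by
    intro x
    obtain ⟨k, hk⟩ := reach x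
    rw [← hk]
    exact step k x
  have : Nonempty (ZMod 1113643) := ⟨0⟩
  exact ⟨fun x y => (to_c x).trans (to_c y).symm⟩

/-- **Q1 of MP_28a92f_nt is false.** For the prime `p = 1113643 > 7` and `a = 278411` the functional graph of
`x ↦ x² + a` over `F_p` is connected and its only cycle is the fixed point `556822`. -/
theorem result : Nat.Prime 1113643 ∧ 7 < 1113643 ∧ (graph 1113643 278411).Connected ∧
    ∀ x : ZMod 1113643, OnCycle 1113643 278411 x ↔ x = 556822 := by
  refine ⟨prime_p, by norm_num, connected, fun x => ⟨?_, ?_⟩⟩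
  · rintro ⟨n, hn, hx⟩
    obtain ⟨k, hk⟩ := reach x
    -- `x = f^[n k] x`, and this is `556822` since `n k ≥ k`
    have h1 : (fun z : ZMod 1113643 => z ^ 2 + 278411)^[n * k] x = x :=
      (Function.IsPeriodicPt.mul_const hx k : _)
    obtain ⟨j, hj⟩ : ∃ j, n * k = j + k := ⟨n * k - k, by
      have : k ≤ n * k := Nat.le_mul_of_pos_left k hn
      omega⟩
    rw [hj, Function.iterate_add_apply, hk, fixed_iter] at h1
    exact h1.symm
  · rintro rfl
    exact ⟨1, le_rfl, fixed⟩

end Pool.Agent.Results.MP_28a92f_nt.Counterexample
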